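import Pool.Agent.helper22.RG9.Spec

/-!
# MP_a2a22c_al, project rg9, row INF: an infinite group of integral matrices has an element with `x ^ L ≠ 1`
-/

set_option autoImplicit false

namespace Pool.Agent.RG9

open Matrix Pool.Agent.H48SL Pool.Agent.UG

/-- the first two terms of the binomial formula -/
theorem INF_binom {R : Type} [Ring R] (N : R) (m : ℕ) : ∃ Q : R, (1 + N) ^ m = 1 + (m : R) * N + N * N * Q := by
  induction m with
  | zero => exact ⟨0, by simp⟩
  | succ m ih =>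
    obtain ⟨Q, hQ⟩ := ih
    refine ⟨Q + (m : R) + Q * N, ?_⟩
    have hc : (m : R) * N = N * (m : R) := (Nat.cast_commute m N).eq
    rw [pow_succ, hQ]
    push_cast
    have e1 : N * N * (Q + (m : R) + Q * N) = N * N * Q + N * N * (m : R) + N * N * Q * N := by noncomm_ring
    have e2 : N * N * (m : R) = (m : R) * N * N := by
      rw [hc, mul_assoc N (m : R) N, hc, ← mul_assoc]
    rw [e1, e2]
    noncomm_ring

/-- one step of the descent -/
theorem INF_step {n : ℕ} (N : Matrix (Fin n) (Fin n) ℤ) (m : ℕ) (hm : m = 3 ∨ ¬ 3 ∣ m) (h : (1 + N) ^ m = 1) (k : ℕ)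
    (hk : ∃ M : Matrix (Fin n) (Fin n) ℤ, N = (3 : ℤ) ^ (k + 1) • M) :
    ∃ M : Matrix (Fin n) (Fin n) ℤ, N = (3 : ℤ) ^ (k + 2) • M := by
  obtain ⟨M, hM⟩ := hk
  have key : ∀ i j, (3 : ℤ) ^ (k + 2) ∣ N i j := by
    intro i j
    rcases hm with rfl | hm
    · have e1 : (1 + N) ^ 3 - 1 = 3 * N + 3 * (N * N) + N * N * N := by noncomm_ring
      rw [h, sub_self, hM] at e1
      have e2 : (3 : Matrix (Fin n) (Fin n) ℤ) * ((3 : ℤ) ^ (k + 1) • M) + 3 * (((3 : ℤ) ^ (k + 1) • M) * ((3 : ℤ) ^ (k + 1) • M)) +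
          ((3 : ℤ) ^ (k + 1) • M) * ((3 : ℤ) ^ (k + 1) • M) * ((3 : ℤ) ^ (k + 1) • M) =
          (3 : ℤ) • (N + (3 : ℤ) ^ (k + 2) • ((3 : ℤ) ^ k • (M * M) + (3 : ℤ) ^ (2 * k) • (M * M * M))) := by
        rw [hM]
        have e3 : (3 : Matrix (Fin n) (Fin n) ℤ) = (3 : ℤ) • (1 : Matrix (Fin n) (Fin n) ℤ) := by
          rw [zsmul_one]
          norm_num
        rw [e3]
        simp only [smul_mul_assoc, mul_smul_comm, smul_smul, one_mul, smul_add]
        have p0 : (3 : ℤ) ^ (k + 1) * 3 = 3 * 3 ^ (k + 1) := by ring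
        have p1 : (3 : ℤ) ^ (k + 1) * 3 ^ (k + 1) * 3 = 3 * (3 ^ (k + 2) * 3 ^ k) := by ring
        have p2 : (3 : ℤ) ^ (k + 1) * (3 ^ (k + 1) * 3 ^ (k + 1)) = 3 * (3 ^ (k + 2) * 3 ^ (2 * k)) := by ring
        rw [p0, p1, p2, add_assoc]
      rw [e2] at e1
      have e4 : N + (3 : ℤ) ^ (k + 2) • ((3 : ℤ) ^ k • (M * M) + (3 : ℤ) ^ (2 * k) • (M * M * M)) = 0 := by
        rcases smul_eq_zero.1 e1.symm with h0 | h0
        · norm_num at h0
        · exact h0
      have e5 := congrFun (congrFun e4 i) j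
      simp only [Matrix.add_apply, Matrix.smul_apply, Matrix.zero_apply, smul_eq_mul] at e5
      refine ⟨-((3 : ℤ) ^ k * (M * M) i j + (3 : ℤ) ^ (2 * k) * (M * M * M) i j), ?_⟩
      linarith
    · obtain ⟨Q, hQ⟩ := INF_binom N m
      rw [h] at hQ
      have e1 : (m : Matrix (Fin n) (Fin n) ℤ) * N + N * N * Q = 0 := by
        have e2 := sub_eq_zero.2 hQ.symm
        have e3 : 1 + (m : Matrix (Fin n) (Fin n) ℤ) * N + N * N * Q - 1 = (m : Matrix (Fin n) (Fin n) ℤ) * N + N * N * Q := by abel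
        rwa [e3] at e2
      have e2 : N * N * Q = (3 : ℤ) ^ (k + 2) • ((3 : ℤ) ^ k • (M * M * Q)) := by
        rw [hM]
        simp only [smul_mul_assoc, mul_smul_comm, smul_smul]
        have p1 : (3 : ℤ) ^ (k + 1) * 3 ^ (k + 1) = 3 ^ (k + 2) * 3 ^ k := by ring
        rw [p1]
      have e3 : (m : Matrix (Fin n) (Fin n) ℤ) * N = (m : ℤ) • N := by
        rw [natCast_zsmul, nsmul_eq_mul]
      rw [e2, e3] at e1
      have e5 := congrFun (congrFun e1 i) j
      simp only [Matrix.add_apply, Matrix.smul_apply, Matrix.zero_apply, smul_eq_mul] at e5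
      have hdvd : (3 : ℤ) ^ (k + 2) ∣ (m : ℤ) * N i j := ⟨-((3 : ℤ) ^ k * (M * M * Q) i j), by linarith⟩
      have hcop : IsCoprime ((3 : ℤ) ^ (k + 2)) (m : ℤ) := by
        apply IsCoprime.pow_left
        have h3 : Nat.Coprime 3 m := (Nat.Prime.coprime_iff_not_dvd Nat.prime_three).2 hm
        have h4 := Nat.isCoprime_iff_coprime.2 h3
        exact_mod_cast h4
      exact hcop.dvd_of_dvd_mul_left hdvd
  choose f hf using key
  exact ⟨Matrix.of f, by
    ext i j
    rw [hf i j]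
    rfl⟩

/-- a matrix which is `1` modulo `3` and of order dividing `m` (`m = 3` or prime to `3`) is `1` -/
theorem INF_one {n : ℕ} (N : Matrix (Fin n) (Fin n) ℤ) (m : ℕ) (hm : m = 3 ∨ ¬ 3 ∣ m) (h : (1 + N) ^ m = 1)
    (h3 : ∀ i j, (3 : ℤ) ∣ N i j) : N = 0 := by
  have hk : ∀ k : ℕ, ∃ M : Matrix (Fin n) (Fin n) ℤ, N = (3 : ℤ) ^ (k + 1) • M := by
    intro k
    induction k with
    | zero =>
      choose f hf using h3
      refine ⟨Matrix.of f, ?_⟩
      ext i j
      rw [hf i j, zero_add, pow_one]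
      rfl
    | succ k ih => exact INF_step N m hm h k ih
  ext i j
  obtain ⟨M, hM⟩ := hk (N i j).natAbs
  have h1 : (3 : ℤ) ^ ((N i j).natAbs + 1) ∣ N i j := by
    have h4 := congrFun (congrFun hM i) j
    rw [Matrix.smul_apply, smul_eq_mul] at h4
    exact ⟨M i j, h4⟩
  refine Int.eq_zero_of_abs_lt_dvd h1 ?_
  have h2 : (N i j).natAbs < 3 ^ ((N i j).natAbs + 1) :=
    lt_of_lt_of_le (Nat.lt_pow_self (by norm_num)) (Nat.pow_le_pow_right (by norm_num) (Nat.le_succ _))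
  rw [Int.abs_eq_natAbs]
  exact_mod_cast h2

theorem INF_tf {n : ℕ} (L : ℕ) (hL : 1 ≤ L) : ∀ g : SLZ n,
    Matrix.SpecialLinearGroup.map (Int.castRingHom (ZMod 3)) g = 1 → g ^ L = 1 → g = 1 := by
  induction L using Nat.strong_induction_on with
  | _ L ih =>
    have base : ∀ m : ℕ, (m = 3 ∨ ¬ 3 ∣ m) → ∀ g : SLZ n,
        Matrix.SpecialLinearGroup.map (Int.castRingHom (ZMod 3)) g = 1 → g ^ m = 1 → g = 1 := by
      intro m hm g hg hgm
      have h1 : (1 + ((g : Matrix (Fin n) (Fin n) ℤ) - 1)) ^ m = 1 := by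
        rw [add_sub_cancel, ← Matrix.SpecialLinearGroup.coe_pow, hgm, Matrix.SpecialLinearGroup.coe_one]
      have h2 : ∀ i j, (3 : ℤ) ∣ ((g : Matrix (Fin n) (Fin n) ℤ) - 1) i j := by
        intro i j
        have h3 := congrArg (fun x : Matrix.SpecialLinearGroup (Fin n) (ZMod 3) => (x : Matrix (Fin n) (Fin n) (ZMod 3)) i j) hg
        have h4 : (((g : Matrix (Fin n) (Fin n) ℤ) i j : ℤ) : ZMod 3) = ((1 : Matrix (Fin n) (Fin n) ℤ) i j : ℤ) := by
          have h5 : (((g : Matrix (Fin n) (Fin n) ℤ) i j : ℤ) : ZMod 3) = (1 : Matrix (Fin n) (Fin n) (ZMod 3)) i j := h3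
          rw [h5, Matrix.one_apply, Matrix.one_apply]
          split_ifs
          · rw [Int.cast_one]
          · rw [Int.cast_zero]
        rw [Matrix.sub_apply]
        have h5 : ((((g : Matrix (Fin n) (Fin n) ℤ) i j - (1 : Matrix (Fin n) (Fin n) ℤ) i j : ℤ)) : ZMod 3) = 0 := by
          rw [Int.cast_sub, h4, sub_self]
        exact_mod_cast (ZMod.intCast_zmod_eq_zero_iff_dvd _ 3).1 h5
      have h6 := INF_one _ m hm h1 h2
      apply Subtype.ext
      show (g : Matrix (Fin n) (Fin n) ℤ) = 1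
      exact sub_eq_zero.1 h6
    intro g hg hgL
    by_cases h3 : 3 ∣ L
    · obtain ⟨L', hL'⟩ := h3
      have hL'1 : 1 ≤ L' := by
        rcases Nat.eq_zero_or_pos L' with h0 | h0
        · rw [h0, mul_zero] at hL'
          omega
        · exact h0
      have h4 : (g ^ L') ^ 3 = 1 := by
        rw [← pow_mul, mul_comm, ← hL', hgL]
      have h5 := base 3 (Or.inl rfl) (g ^ L') (by rw [map_pow, hg, one_pow]) h4
      exact ih L' (by omega) hL'1 g hg h5
    · exact base L (Or.inr h3) g hg hgL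

theorem INF : INF_stmt := by
  intro n L hL X hX
  by_contra hcon
  have hall : ∀ x ∈ X, x ^ L = 1 := by
    intro x hx
    by_contra h
    exact hcon ⟨x, hx, h⟩
  have hfin : Finite (Matrix.SpecialLinearGroup (Fin n) (ZMod 3)) :=
    Finite.of_injective (fun x : Matrix.SpecialLinearGroup (Fin n) (ZMod 3) => (x : Matrix (Fin n) (Fin n) (ZMod 3))) Subtype.coe_injective
  have hinj : Set.InjOn (Matrix.SpecialLinearGroup.map (Int.castRingHom (ZMod 3))) (X : Set (SLZ n)) := by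
    intro x hx y hy hxy
    have h1 : Matrix.SpecialLinearGroup.map (Int.castRingHom (ZMod 3)) (x * y⁻¹) = 1 := by
      rw [map_mul, map_inv]
      exact mul_inv_eq_one.2 hxy
    have h2 := INF_tf L hL (x * y⁻¹) h1 (hall _ (X.mul_mem hx (X.inv_mem hy)))
    exact mul_inv_eq_one.1 h2
  exact hX (Set.Finite.of_finite_image (Set.toFinite _) hinj)

end Pool.Agent.RG9
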