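import Pool.Agent.helper22.RG9.Spec3

/-! Row ANU of project rg9 (MP_a2a22c_al): the upper triangular part of a graded family is nilpotent. -/

set_option autoImplicit false

namespace Pool.Agent.RG9

open Matrix Pool.Agent.H48SL Pool.Agent.UG

/-- the span of the `a i j`, `i < j`, `c ≤ j` -/
def ANU_u {n m : ℕ} (a : Fin m → Fin m → Submodule ℚ (MQ n)) (c : ℕ) : Submodule ℚ (MQ n) :=
  Submodule.span ℚ {Z | ∃ i j : Fin m, i < j ∧ c ≤ j.val ∧ Z ∈ a i j}

theorem ANU_mono {n : ℕ} {𝔞 𝔟 : Submodule ℚ (MQ n)} (h : 𝔞 ≤ 𝔟) (hb : ANil 𝔟) : ANil 𝔞 := by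
  obtain ⟨N, hN⟩ := hb
  exact ⟨N, fun l hl hlen => hN l (fun X hX => h (hl X hX)) hlen⟩

theorem ANU_bot {n : ℕ} : ANil (⊥ : Submodule ℚ (MQ n)) := by
  refine ⟨1, fun l hl hlen => ?_⟩
  cases l with
  | nil => simp at hlen
  | cons X l =>
    have h := (Submodule.mem_bot ℚ).1 (hl X List.mem_cons_self)
    rw [List.prod_cons, h, zero_mul]

theorem ANU_step {n m : ℕ} (hNCM : NCM_stmt) (hANL : ANL_stmt) (a : Fin m → Fin m → Submodule ℚ (MQ n)) (ha : LGr a)
    (hnil : ∀ i j, i ≠ j → ∀ A ∈ a i j, IsNilpotent A) (c : ℕ) (hc : c < m) (h : ANil (ANU_u a (c + 1))) : ANil (ANU_u a c) := by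
  let c' : Fin m := ⟨c, hc⟩
  let S : Set (MQ n) := {Z | ∃ i : Fin m, i < c' ∧ Z ∈ a i c'}
  have hS : ANil (Submodule.span ℚ S) := by
    refine hNCM n S ?_ ?_
    · rintro A ⟨i, hi, hA⟩ B ⟨k, hk, hB⟩
      exact ha.comm i c' k c' hi.ne hk.ne hk.ne' hi.ne A hA B hB
    · rintro A ⟨i, hi, hA⟩
      exact hnil i c' hi.ne A hA
  have hbr : ∀ C ∈ Submodule.span ℚ S, ∀ B ∈ ANU_u a (c + 1), C * B - B * C ∈ ANU_u a (c + 1) := by
    intro C hC
    induction hC using Submodule.span_induction with
    | mem C hC =>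
      obtain ⟨i, hi, hC⟩ := hC
      intro B hB
      unfold ANU_u at hB
      induction hB using Submodule.span_induction with
      | mem B hB =>
        obtain ⟨k, j, hkj, hj, hB⟩ := hB
        have hcj : c' < j := hj
        have hij : i < j := lt_trans hi hcj
        by_cases hk : c' = k
        · subst hk
          refine Submodule.subset_span ⟨i, j, hij, hj, ?_⟩
          rw [ha.gen i c' j hi.ne hcj.ne hij.ne]
          exact Submodule.subset_span ⟨C, hC, B, hB, rfl⟩
        · rw [ha.comm i c' k j hi.ne hkj.ne hk hij.ne C hC B hB, sub_self]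
          exact zero_mem _
      | zero => rw [mul_zero, zero_mul, sub_self]; exact zero_mem _
      | add B B' _ _ h1 h2 =>
        have e : C * (B + B') - (B + B') * C = (C * B - B * C) + (C * B' - B' * C) := by noncomm_ring
        rw [e]; exact add_mem h1 h2
      | smul t B _ h1 =>
        have e : C * (t • B) - (t • B) * C = t • (C * B - B * C) := by
          rw [mul_smul_comm, smul_mul_assoc, smul_sub]
        rw [e]; exact Submodule.smul_mem _ _ h1
    | zero => intro B _; rw [mul_zero, zero_mul, sub_self]; exact zero_mem _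
    | add C C' _ _ h1 h2 =>
      intro B hB
      have e : (C + C') * B - B * (C + C') = (C * B - B * C) + (C' * B - B * C') := by noncomm_ring
      rw [e]; exact add_mem (h1 B hB) (h2 B hB)
    | smul t C _ h1 =>
      intro B hB
      have e : (t • C) * B - B * (t • C) = t • (C * B - B * C) := by
        rw [mul_smul_comm, smul_mul_assoc, smul_sub]
      rw [e]; exact Submodule.smul_mem _ _ (h1 B hB)
  refine ANU_mono ?_ (hANL n (ANU_u a (c + 1)) (Submodule.span ℚ S) h hS hbr)
  unfold ANU_u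
  rw [Submodule.span_le]
  rintro Z ⟨i, j, hij, hj, hZ⟩
  rcases Nat.eq_or_lt_of_le hj with h1 | h1
  · have h2 : j = c' := Fin.ext h1.symm
    subst h2
    exact Submodule.mem_sup_right (Submodule.subset_span ⟨i, hij, hZ⟩)
  · exact Submodule.mem_sup_left (Submodule.subset_span ⟨i, j, hij, h1, hZ⟩)

theorem ANU (hNCM : NCM_stmt) (hANL : ANL_stmt) : ANU_stmt := by
  intro n m _ a ha hnil
  have key : ∀ k : ℕ, k ≤ m → ANil (ANU_u a (m - k)) := by
    intro k
    induction k with
    | zero =>
      intro _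
      refine ANU_mono ?_ ANU_bot
      unfold ANU_u
      rw [Submodule.span_le]
      rintro Z ⟨i, j, hij, hj, hZ⟩
      exact absurd j.isLt (by omega)
    | succ k ih =>
      intro hk
      have h1 := ih (by omega)
      have h2 : m - k = (m - (k + 1)) + 1 := by omega
      rw [h2] at h1
      exact ANU_step hNCM hANL a ha hnil _ (by omega) h1
  have h0 := key m le_rfl
  refine ANU_mono ?_ h0
  unfold ANU_u
  rw [Submodule.span_le]
  rintro Z ⟨i, j, hij, hZ⟩
  exact Submodule.subset_span ⟨i, j, hij, by omega, hZ⟩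

end Pool.Agent.RG9
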